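import Pool.Agent.ASO.Out
import Pool.Agent.AST.Main

/-!
The elementary type conjecture for `-1 = 1` from functionals without outer bad planes, and from
the extremal principle (MAXP) for outer planes.
-/

set_option autoImplicit false

namespace Pool.Agent.ASO

open scoped BigOperators
open QS Pool.Agent.RFT Pool.Agent.AST Pool.Agent.ETG Pool.Agent.RFN

/-- `p(φ)`: the number of pairs `(u, v)` with `q (u, v) = 0` and `V_u` contained in `ker φ` -/
noncomputable def pmass {V : Type} [AddCommGroup V] [Module (ZMod 2) V] (Z : V → V → Prop)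
    (φ : V →ₗ[ZMod 2] ZMod 2) : ℕ :=
  Set.ncard {x : V × V | Z x.1 x.2 ∧ ∀ t, Z x.1 t → φ t = 0}

/-- **(OUT)**: some functional has no outer bad plane -/
def Stmt_OUT : Prop := ∀ (V : Type) [AddCommGroup V] [Module (ZMod 2) V] [Finite V]
  (Z : V → V → Prop), LZ Z → (∃ v : V, v ≠ 0) → ∃ φ : V →ₗ[ZMod 2] ZMod 2, OutZ Z φ

/-- **(MAXP)** for outer planes: a functional with maximal `p(φ)` has no outer bad plane -/
def Stmt_MAXP : Prop := ∀ (V : Type) [AddCommGroup V] [Module (ZMod 2) V] [Finite V]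
  (Z : V → V → Prop), LZ Z → ∀ φ : V →ₗ[ZMod 2] ZMod 2, φ ≠ 0 →
  (∀ ψ : V →ₗ[ZMod 2] ZMod 2, ψ ≠ 0 → pmass Z ψ ≤ pmass Z φ) →
  ∀ a b, φ a = 0 → φ b = 1 → (∃ v, Z a v ∧ φ v = 1) → ∃ v, Z a v ∧ Z b v ∧ φ v = 1

/-- (MAXP) for outer planes in structures that are nondegenerate and minimal -/
def Stmt_MAXPm : Prop := ∀ (V : Type) [AddCommGroup V] [Module (ZMod 2) V] [Finite V]
  (Z : V → V → Prop), LZ Z → Smaller V →
  (∀ x, (∀ v w, Z x v ∨ Z x w ∨ Z x (v + w)) → x = 0) →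
  (∀ t, t ≠ 0 → ∃ v, Z t v ∧ v ≠ 0 ∧ v ≠ t) → ∀ φ : V →ₗ[ZMod 2] ZMod 2, φ ≠ 0 →
  (∀ ψ : V →ₗ[ZMod 2] ZMod 2, ψ ≠ 0 → pmass Z ψ ≤ pmass Z φ) →
  ∀ a b, φ a = 0 → φ b = 1 → (∃ v, Z a v ∧ φ v = 1) → ∃ v, Z a v ∧ Z b v ∧ φ v = 1

/-- a minimal structure with a functional without outer bad planes is of elementary type -/
theorem et_of_out {V : Type} [AddCommGroup V] [Module (ZMod 2) V] [Finite V]
    {Z : V → V → Prop} (hZ : LZ Z) (hsm : Smaller V)
    (h : ∃ φ : V →ₗ[ZMod 2] ZMod 2, OutZ Z φ) : ETZ Z := by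
  obtain ⟨φ, hφ⟩ := h
  exact ASZ V Z hZ hsm ⟨φ, primeZ_of_outZ hZ hφ⟩

/-- a functional with maximal `p` -/
theorem exists_max {V : Type} [AddCommGroup V] [Module (ZMod 2) V] [Finite V]
    (Z : V → V → Prop) (hV : ∃ v : V, v ≠ 0) : ∃ φ : V →ₗ[ZMod 2] ZMod 2, φ ≠ 0 ∧
      ∀ ψ : V →ₗ[ZMod 2] ZMod 2, ψ ≠ 0 → pmass Z ψ ≤ pmass Z φ := by
  obtain ⟨v, hv⟩ := hV
  obtain ⟨f, hf1, -⟩ := ETC.exists_dual_sep (p := (⊥ : Submodule (ZMod 2) V)) (x := v)
    (by rwa [Submodule.mem_bot])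
  have hf : f ≠ 0 := by
    rintro rfl
    exact zero_ne_one hf1
  have hfin : Finite (V →ₗ[ZMod 2] ZMod 2) :=
    Finite.of_injective (fun g : V →ₗ[ZMod 2] ZMod 2 => (g : V → ZMod 2)) DFunLike.coe_injective
  obtain ⟨φ, hφ, hmax⟩ := Set.exists_max_image {g : V →ₗ[ZMod 2] ZMod 2 | g ≠ 0} (pmass Z)
    (Set.toFinite _) ⟨f, hf⟩
  exact ⟨φ, hφ, hmax⟩

/-- induction on the size of the group -/
theorem all_of_step (h : ∀ (V : Type) [AddCommGroup V] [Module (ZMod 2) V] [Finite V]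
    (Z : V → V → Prop), LZ Z → Smaller V → (∃ v : V, v ≠ 0) → ETZ Z) :
    ∀ (V : Type) [AddCommGroup V] [Module (ZMod 2) V] [Finite V] (Z : V → V → Prop), LZ Z →
      ETZ Z := by
  have key : ∀ n : ℕ, ∀ (V : Type) [AddCommGroup V] [Module (ZMod 2) V] [Finite V]
      (Z : V → V → Prop), LZ Z → Nat.card V = n → ETZ Z := by
    intro n
    induction n using Nat.strong_induction_on with
    | _ n ih =>
      intro V _ _ _ Z hZ hn
      have hsm : Smaller V := by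
        intro U _ _ _ ZU hU hc
        exact ih (Nat.card U) (by omega) U ZU hU rfl
      by_cases hd : ∃ v : V, v ≠ 0
      · exact h V Z hZ hsm hd
      · push Not at hd
        rintro S ⟨-, e, -⟩
        refine ElemType.L0 S ?_
        rw [Nat.card_eq_one_iff_unique]
        refine ⟨⟨fun a b => ?_⟩, ⟨1⟩⟩
        have h1 : ∀ a : S.G, a = 1 := by
          intro a
          obtain ⟨v, rfl⟩ := e.surjective a
          have h2 : v = 1 := hd (Multiplicative.toAdd v)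
          rw [h2, map_one]
        rw [h1 a, h1 b]
  intro V _ _ _ Z hZ
  exact key _ V Z hZ rfl

/-- (OUT) implies the conjecture for `-1 = 1` -/
theorem etz_of_out (h : Stmt_OUT) : ∀ (V : Type) [AddCommGroup V] [Module (ZMod 2) V] [Finite V]
    (Z : V → V → Prop), LZ Z → ETZ Z :=
  all_of_step fun V _ _ _ Z hZ hsm hd => et_of_out hZ hsm (h V Z hZ hd)

/-- (MAXP) for outer planes implies the conjecture for `-1 = 1` -/
theorem etz_of_maxpm (h : Stmt_MAXPm) : ∀ (V : Type) [AddCommGroup V] [Module (ZMod 2) V]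
    [Finite V] (Z : V → V → Prop), LZ Z → ETZ Z := by
  refine all_of_step fun V _ _ _ Z hZ hsm hd => ?_
  by_contra hET
  obtain ⟨hr1, hrg⟩ := RED V Z hZ hsm hET
  obtain ⟨φ, hφ, hmax⟩ := exists_max Z hd
  exact hET (et_of_out hZ hsm ⟨φ, hφ, h V Z hZ hsm hr1 hrg φ hφ hmax⟩)

/-- (MAXP) for outer planes implies the conjecture for `-1 = 1` -/
theorem etz_of_maxp (h : Stmt_MAXP) : ∀ (V : Type) [AddCommGroup V] [Module (ZMod 2) V]
    [Finite V] (Z : V → V → Prop), LZ Z → ETZ Z :=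
  etz_of_maxpm fun V _ _ _ Z hZ _ _ _ φ hφ hmax => h V Z hZ φ hφ hmax

/-- the conjecture for quaternionic structures with `-1 = 1` -/
theorem qstruct_of {h : ∀ (V : Type) [AddCommGroup V] [Module (ZMod 2) V]
    [Finite V] (Z : V → V → Prop), LZ Z → ETZ Z} (S : QStruct) (hf : Finite S.G)
    (hneg : S.neg = 1) : ElemType S :=
  h (Additive S.G) (ZS S) (lzs S hneg) S (qof S hneg)

end Pool.Agent.ASO
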