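import Pool.Agent.AST.StmtsF
import Pool.Agent.AST.SBAS
import Pool.Agent.ETC.QSat
import Pool.Agent.REG10.FN.Basic

/-!
LEMMA IN -> OUT (note 1959, helper95): a functional without outer bad planes is prime.  Set valued
version, `-1 = 1`.
-/

set_option autoImplicit false
set_option linter.unusedSectionVars false

namespace Pool.Agent.ASO

open scoped BigOperators
open Pool.Agent.RFT Pool.Agent.AST Pool.Agent.ETG Pool.Agent.RFN
open Pool.Agent.Helper58.PLine (QData)
open ETC (sg ind ind_true ind_false sg_add)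

section

variable {V Q : Type} [AddCommGroup V] [Module (ZMod 2) V]

/-- no outer bad plane -/
def OutD (D : QData V Q) (φ : V →ₗ[ZMod 2] ZMod 2) : Prop :=
  ∀ a b, φ a = 0 → φ b = 1 → (∃ v, D.q a v = D.z ∧ φ v = 1) →
    ∃ v, D.q a v = D.z ∧ D.q b v = D.z ∧ φ v = 1

/-- `u ∈ A_p`: `V_u` is contained in the kernel of `p` -/
def InA (D : QData V Q) (p : V →ₗ[ZMod 2] ZMod 2) (u : V) : Prop :=
  ∀ t, D.q u t = D.z → p t = 0

variable [Fintype V] {D : QData V Q} {s : Q} {p r : V →ₗ[ZMod 2] ZMod 2}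

/-- the number of `v` with `q (u, v) = s`, with signs -/
noncomputable def inn (D : QData V Q) (s : Q) (p : V →ₗ[ZMod 2] ZMod 2) (u : V) : ℤ :=
  ∑ v : V, ind (D.q u v = s) * sg (p v)

/-- the number of `v` with `q (u, v) = s` -/
noncomputable def num (D : QData V Q) (s : Q) (u : V) : ℤ := ∑ v : V, ind (D.q u v = s)

/-- the signed number of pairs with value `s` -/
noncomputable def W (D : QData V Q) (s : Q) (p r : V →ₗ[ZMod 2] ZMod 2) : ℤ :=
  ∑ u : V, sg (r u) * inn D s p u

theorem W_symm : W D s p r = W D s r p := by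
  unfold W inn
  simp_rw [Finset.mul_sum]
  rw [Finset.sum_comm]
  refine Finset.sum_congr rfl fun u _ => Finset.sum_congr rfl fun v _ => ?_
  rw [D.symm v u]
  ring

theorem inn_zero {u : V} (hu : ¬ InA D p u) : inn D s p u = 0 := by
  unfold InA at hu
  push Not at hu
  obtain ⟨t, ht, hpt⟩ := hu
  have hp1 : p t = 1 := (z2 (p t)).resolve_left hpt
  have h : inn D s p u = - inn D s p u := by
    conv_lhs => unfold inn
    rw [← Equiv.sum_comp (Equiv.addRight t)]
    unfold inn
    rw [← Finset.sum_neg_distrib]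
    refine Finset.sum_congr rfl fun v _ => ?_
    rw [Equiv.coe_addRight, dq_add D ht, map_add, hp1, sg_add]
    show _ * (_ * (-1 : ℤ)) = _
    ring
  linarith

theorem val_eq {a y u v : V} (ha : InA D p a) (hy : D.q a y = s) (hu : InA D p u)
    (hv : D.q u v = s) : p v = p y := by
  obtain ⟨t, h1, h2⟩ := dlink D hv hy
  have h3 := hu (v + t) ((dq D).1 (hv.trans h1.symm))
  have h4 := ha (y + t) ((dq D).1 (hy.trans h2.symm))
  rw [map_add] at h3 h4
  exact (eq_iff_add.2 h3).trans (eq_iff_add.2 h4).symm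

theorem inn_eq {a y u : V} (ha : InA D p a) (hy : D.q a y = s) (hu : InA D p u) :
    inn D s p u = sg (p y) * num D s u := by
  unfold inn num
  rw [Finset.mul_sum]
  refine Finset.sum_congr rfl fun v _ => ?_
  by_cases hv : D.q u v = s
  · rw [val_eq ha hy hu hv, mul_comm]
  · rw [ind_false hv, zero_mul, mul_zero]

theorem num_nonneg (u : V) : 0 ≤ num D s u := by
  unfold num
  refine Finset.sum_nonneg fun v _ => ?_
  by_cases hv : D.q u v = s
  · rw [ind_true hv]
    exact zero_le_one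
  · rw [ind_false hv]

theorem num_pos {a y : V} (hy : D.q a y = s) : 0 < num D s a := by
  unfold num
  have h1 : (1 : ℤ) = ind (D.q a y = s) := (ind_true hy).symm
  have h2 : ind (D.q a y = s) ≤ ∑ v : V, ind (D.q a v = s) :=
    Finset.single_le_sum (f := fun v => ind (D.q a v = s)) (fun v _ => by
      by_cases hv : D.q a v = s
      · rw [ind_true hv]
        exact zero_le_one
      · rw [ind_false hv]) (Finset.mem_univ y)
  omega

/-- the value of the signed count when `r = 0` on `A_p` -/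
theorem W_pos {a y : V} (ha : InA D p a) (hy : D.q a y = s)
    (hr : ∀ u, InA D p u → r u = 0) : ∃ M : ℤ, 0 < M ∧ W D s p r = sg (p y) * M := by
  classical
  refine ⟨∑ u : V, ind (InA D p u) * num D s u, ?_, ?_⟩
  · have h1 : ind (InA D p a) * num D s a ≤ ∑ u : V, ind (InA D p u) * num D s u :=
      Finset.single_le_sum (f := fun u => ind (InA D p u) * num D s u) (fun u _ => by
        by_cases hu : InA D p u
        · rw [ind_true hu, one_mul]
          exact num_nonneg u
        · rw [ind_false hu, zero_mul]) (Finset.mem_univ a)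
    rw [ind_true ha, one_mul] at h1
    exact lt_of_lt_of_le (num_pos hy) h1
  · unfold W
    rw [Finset.mul_sum]
    refine Finset.sum_congr rfl fun u _ => ?_
    by_cases hu : InA D p u
    · rw [inn_eq ha hy hu, hr u hu, ind_true hu, one_mul]
      show 1 * _ = _
      rw [one_mul]
    · rw [inn_zero hu, ind_false hu, zero_mul, mul_zero, mul_zero]

theorem W_congr {r' : V →ₗ[ZMod 2] ZMod 2} (h : ∀ u, InA D p u → r u = r' u) :
    W D s p r = W D s p r' := by
  unfold W
  refine Finset.sum_congr rfl fun u _ => ?_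
  by_cases hu : InA D p u
  · rw [h u hu]
  · rw [inn_zero hu, mul_zero, mul_zero]

end

section

variable {V Q : Type} [AddCommGroup V] [Module (ZMod 2) V] [Finite V] {D : QData V Q}
  {φ : V →ₗ[ZMod 2] ZMod 2}

/-- a functional vanishing on `V_a ∩ V_b` is a sum -/
theorem fun_split {a b : V} (h : ∀ v, D.q a v = D.z → D.q b v = D.z → φ v = 0) :
    ∃ al be : V →ₗ[ZMod 2] ZMod 2, (∀ v, D.q a v = D.z → al v = 0) ∧
      (∀ v, D.q b v = D.z → be v = 0) ∧ ∀ v, φ v = al v + be v := by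
  have h1 : φ ∈ (D.ann a ⊓ D.ann b).dualAnnihilator := by
    rw [Submodule.mem_dualAnnihilator]
    rintro v ⟨h1, h2⟩
    exact h v h1 h2
  rw [Subspace.dualAnnihilator_inf_eq, Submodule.mem_sup] at h1
  obtain ⟨al, h2, be, h3, h4⟩ := h1
  rw [Submodule.mem_dualAnnihilator] at h2 h3
  exact ⟨al, be, fun v hv => h2 v hv, fun v hv => h3 v hv, fun v => by rw [← h4]; rfl⟩

/-- LEMMA IN -> OUT: inner planes -/
theorem inner_good (hO : OutD D φ) (dalt : ∀ x, D.q x x = D.z) {a b : V}
    (ha : φ a = 0) (hb : φ b = 0) (ha' : ∃ v, D.q a v = D.z ∧ φ v = 1)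
    (hb' : ∃ v, D.q b v = D.z ∧ φ v = 1) (hab : ∃ v, D.q (a + b) v = D.z ∧ φ v = 1) :
    ∃ v, D.q a v = D.z ∧ D.q b v = D.z ∧ φ v = 1 := by
  have := Fintype.ofFinite V
  by_contra hcon
  have h0 : ∀ v, D.q a v = D.z → D.q b v = D.z → φ v = 0 := by
    intro v h1 h2
    rcases z2 (φ v) with h3 | h3
    · exact h3
    · exact absurd ⟨v, h1, h2, h3⟩ hcon
  obtain ⟨al, be, hal, hbe, hsum⟩ := fun_split h0
  -- (1)
  have A1 : ∀ x, InA D al x → φ x = 0 := by
    intro x hx
    rcases z2 (φ x) with h3 | h3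
    · exact h3
    · obtain ⟨v, h4, h5, h6⟩ := hO b x hb h3 hb'
      rw [hsum, hx v h5, hbe v h4, add_zero] at h6
      exact absurd h6 zero_ne_one
  have A2 : ∀ x, InA D be x → φ x = 0 := by
    intro x hx
    rcases z2 (φ x) with h3 | h3
    · exact h3
    · obtain ⟨v, h4, h5, h6⟩ := hO a x ha h3 ha'
      rw [hsum, hx v h5, hal v h4, add_zero] at h6
      exact absurd h6 zero_ne_one
  obtain ⟨y, hy, hy1⟩ := hab
  have hs : D.q a y = D.q b y := (dq' D).2 hy
  obtain ⟨M1, hM1, e1⟩ := W_pos (D := D) (s := D.q a y) (p := al) (r := φ) (a := a) (y := y)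
    hal rfl A1
  obtain ⟨M2, hM2, e2⟩ := W_pos (D := D) (s := D.q a y) (p := be) (r := φ) (a := b) (y := y)
    hbe hs.symm A2
  have e3 : W D (D.q a y) φ al = W D (D.q a y) φ be := by
    refine W_congr fun u hu => ?_
    have h1 : φ u = 0 := hu u (dalt u)
    rw [hsum] at h1
    exact eq_iff_add.2 h1
  rw [W_symm, W_symm (p := φ) (r := be), e1, e2] at e3
  rw [hsum] at hy1
  rcases z2 (al y) with h1 | h1 <;> rcases z2 (be y) with h2 | h2
  · rw [h1, h2] at hy1
    exact absurd hy1 (by decide)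
  · rw [h1, h2] at e3
    simp only [ETC.sg_zero, ETC.sg_one] at e3
    linarith
  · rw [h1, h2] at e3
    simp only [ETC.sg_zero, ETC.sg_one] at e3
    linarith
  · rw [h1, h2] at hy1
    exact absurd hy1 (by decide)

/-- LEMMA IN -> OUT -/
theorem prime_of_out (hO : OutD D φ) (dalt : ∀ x, D.q x x = D.z) (x y : V)
    (hx : ∃ v, D.q x v = D.z ∧ φ v = 1) (hy : ∃ v, D.q y v = D.z ∧ φ v = 1)
    (hxy : ∃ v, D.q (x + y) v = D.z ∧ φ v = 1) :
    ∃ v, D.q x v = D.z ∧ D.q y v = D.z ∧ φ v = 1 := by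
  rcases z2 (φ x) with h1 | h1 <;> rcases z2 (φ y) with h2 | h2
  · exact inner_good hO dalt h1 h2 hx hy hxy
  · exact hO x y h1 h2 hx
  · obtain ⟨v, h3, h4, h5⟩ := hO y x h2 h1 hy
    exact ⟨v, h4, h3, h5⟩
  · have h3 : φ (x + y) = 0 := by
      rw [map_add, h1, h2]
      decide
    obtain ⟨v, h4, h5, h6⟩ := hO (x + y) x h3 h1 hxy
    refine ⟨v, h5, ?_, h6⟩
    have h7 := dadd' D h4 h5
    rw [add_comm x y, add_assoc, self_add, add_zero] at h7
    exact h7

end

section
variable {V : Type} [AddCommGroup V] [Module (ZMod 2) V]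

/-- no outer bad plane, for a relation -/
def OutZ (Z : V → V → Prop) (φ : V →ₗ[ZMod 2] ZMod 2) : Prop :=
  φ ≠ 0 ∧ ∀ a b, φ a = 0 → φ b = 1 → (∃ v, Z a v ∧ φ v = 1) → ∃ v, Z a v ∧ Z b v ∧ φ v = 1

/-- a functional without outer bad planes is prime -/
theorem primeZ_of_outZ [Finite V] {Z : V → V → Prop} (hZ : LZ Z) {φ : V →ₗ[ZMod 2] ZMod 2}
    (h : OutZ Z φ) : PrimeZ Z φ := by
  refine ⟨h.1, ?_⟩
  have h1 : OutD (dat hZ) φ := by
    intro a b
    simp only [dat_zero hZ]
    exact h.2 a b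
  have h2 := prime_of_out h1 fun x => (dat_zero hZ x x).2 (hZ.alt x)
  intro x y
  have h3 := h2 x y
  simp only [dat_zero hZ] at h3
  exact h3

/-- the converse -/
theorem outZ_of_primeZ {Z : V → V → Prop} (hZ : LZ Z) {φ : V →ₗ[ZMod 2] ZMod 2}
    (h : PrimeZ Z φ) : OutZ Z φ := by
  refine ⟨h.1, fun a b ha hb hv => ?_⟩
  refine h.2 a b hv ⟨b, hZ.alt b, hb⟩ ⟨a + b, hZ.alt _, ?_⟩
  rw [map_add, ha, hb, zero_add]

end

end Pool.Agent.ASO
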